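import Pool.Agent.X29.Asd.Check

set_option autoImplicit false

/-!
# The Atkin–Swinnerton-Dyer congruences of Q1 fail at `p = 2`, `p = 3` and `p = 5`

The elliptic curve `y² + 7xy = x³ + 1764x + 2401` has `j = 1679` and good reduction at
`2, 3, 5`; the congruences fail for it at each of these three primes.
-/

namespace Pool.Agent.Results.MP_fb382b_nt.AsdFails

open Finset Pool.Agent.X29.Asd

/-- the `q`-expansion `E_k = 1 - (2k / B_k) ∑ σ_{k-1}(n) qⁿ` -/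
noncomputable def eis (k : ℕ) : PowerSeries ℚ :=
  1 - PowerSeries.C (2 * (k : ℚ) / bernoulli k) *
    PowerSeries.mk (fun n => ((ArithmeticFunction.sigma (k - 1) n : ℕ) : ℚ))

/-- `Δ = (E₄³ - E₆²) / 1728` -/
noncomputable def discr : PowerSeries ℚ :=
  PowerSeries.C (1 / 1728) * (eis 4 ^ 3 - eis 6 ^ 2)

/-- the `q`-expansion of `j = E₄³ / Δ` -/
noncomputable def jq : LaurentSeries ℚ :=
  (HahnSeries.ofPowerSeries ℤ ℚ (eis 4)) ^ 3 / HahnSeries.ofPowerSeries ℤ ℚ discr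

/-- the `q`-expansion of `F = E_k / (j - j₀)ʳ` -/
noncomputable def F (k r : ℕ) (j₀ : ℚ) : LaurentSeries ℚ :=
  HahnSeries.ofPowerSeries ℤ ℚ (eis k) / (jq - HahnSeries.C j₀) ^ r

/-- the coefficient `a_m(F)`, which is `0` when `m` is not an integer -/
noncomputable def a (k r : ℕ) (j₀ m : ℚ) : ℚ :=
  if m.den = 1 then (F k r j₀).coeff m.num else 0

/-- the `j`-invariant `c₄³ / Δ` of an integral Weierstrass model -/
def jInv (W : WeierstrassCurve ℤ) : ℚ := (W.c₄ : ℚ) ^ 3 / (W.Δ : ℚ)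

/-- `a_p = p + 1 - #W(𝔽_p)` -/
noncomputable def ap (W : WeierstrassCurve ℤ) (p : ℕ) : ℤ :=
  (p : ℤ) + 1 - (Nat.card (W.map (Int.castRingHom (ZMod p))).toAffine.Point : ℤ)

/-- `x ≡ 0 (mod p ^ e)`, that is `v_p(x) ≥ e`, for rational `x` and an integer `e` -/
def CongZero (p : ℕ) (e : ℤ) (x : ℚ) : Prop := x = 0 ∨ e ≤ padicValRat p x

/-- the congruences of Q1 for the elliptic curve `W` and the prime `p`, for all weights `k`,
all orders `r` of the pole, all `n, l ≥ 1`; here `α, β` are the roots of `X² - a_p X + p` and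
`c i` are the coefficients of `∏ (X - α^(k-2-i) β^i)` -/
def Holds (W : WeierstrassCurve ℤ) (p : ℕ) : Prop :=
  ∀ k ∈ ({4, 6, 8, 10, 14} : Finset ℕ), ∀ r : ℕ, 1 ≤ r → r ≤ k - 1 →
    ∀ (α β : ℂ) (c : ℕ → ℤ), α + β = (ap W p : ℂ) → α * β = (p : ℂ) →
      (∏ i ∈ range (k - 1), (Polynomial.X - Polynomial.C (α ^ (k - 2 - i) * β ^ i)) =
        ∑ i ∈ range k, Polynomial.C (c i : ℂ) * Polynomial.X ^ (k - 1 - i)) →
      ∀ n l : ℕ, 1 ≤ n → 1 ≤ l →
        CongZero p (((k : ℤ) - 1) * l - ((k : ℤ) - 3) * k / 2 - r)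
          (∑ i ∈ range k, (c i : ℚ) * a k r (jInv W) ((n : ℚ) * (p : ℚ) ^ ((l : ℤ) - (i : ℤ))))

/-- Q1: the congruences hold for every elliptic curve over `ℚ` with `j ≠ 0, 1728` (given by an
integral Weierstrass model with good reduction at `p`) and every prime `p` of good reduction with
`v_p(j) = 0 = v_p(j - 1728)` -/
def Q1 : Prop :=
  ∀ W : WeierstrassCurve ℤ, W.Δ ≠ 0 → jInv W ≠ 0 → jInv W ≠ 1728 → ∀ p : ℕ, p.Prime →
    ¬ ((p : ℤ) ∣ W.Δ) → padicValRat p (jInv W) = 0 → padicValRat p (jInv W - 1728) = 0 →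
      Holds W p

theorem bern4 : bernoulli 4 = -1 / 30 := by
  rw [bernoulli_eq_bernoulli'_of_ne_one (by norm_num), bernoulli'_four]

theorem bern6 : bernoulli 6 = 1 / 42 := by
  have h5 : bernoulli' 5 = 0 := bernoulli'_eq_zero_of_odd (by decide) (by norm_num)
  rw [bernoulli_eq_bernoulli'_of_ne_one (by norm_num), bernoulli'_def]
  simp [Finset.sum_range_succ, h5, bernoulli'_zero, bernoulli'_one, bernoulli'_two,
    bernoulli'_three, bernoulli'_four, Nat.choose]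
  norm_num

theorem mk_sigma (s : ℕ) (f : ℕ → ℕ) (hf : ∀ d, f d = d ^ s) :
    PowerSeries.mk (fun n => ((ArithmeticFunction.sigma s n : ℕ) : ℚ)) = lam ℚ f := by
  ext n
  unfold lam
  rw [PowerSeries.coeff_mk, PowerSeries.coeff_mk, ArithmeticFunction.sigma_apply]
  congr 1
  apply Finset.sum_congr rfl
  intro d _
  rw [hf]

theorem eis4 : eis 4 = 1 + 240 * lam ℚ f3 := by
  unfold eis
  rw [mk_sigma (4 - 1) f3 (fun d => rfl), bern4]
  have : PowerSeries.C (2 * ((4 : ℕ) : ℚ) / (-1 / 30)) = (-240 : PowerSeries ℚ) := by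
    have e : (2 * ((4 : ℕ) : ℚ) / (-1 / 30)) = -240 := by norm_num
    rw [e, map_neg, map_ofNat]
  rw [this]
  ring

theorem eis6 : eis 6 = 1 - 504 * lam ℚ f5 := by
  unfold eis
  rw [mk_sigma (6 - 1) f5 (fun d => rfl), bern6]
  have : PowerSeries.C (2 * ((6 : ℕ) : ℚ) / (1 / 42)) = (504 : PowerSeries ℚ) := by
    have e : (2 * ((6 : ℕ) : ℚ) / (1 / 42)) = 504 := by norm_num
    rw [e, map_ofNat]
  rw [this]

theorem lam_w : (12 : PowerSeries ℚ) * lam ℚ fw = 5 * lam ℚ f3 + 7 * lam ℚ f5 := by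
  have e12 : (12 : PowerSeries ℚ) = PowerSeries.C 12 :=
      (map_ofNat PowerSeries.C _).symm
  have e5 : (5 : PowerSeries ℚ) = PowerSeries.C 5 :=
      (map_ofNat PowerSeries.C _).symm
  have e7 : (7 : PowerSeries ℚ) = PowerSeries.C 7 :=
      (map_ofNat PowerSeries.C _).symm
  ext n
  rw [e12, e5, e7, map_add, PowerSeries.coeff_C_mul, PowerSeries.coeff_C_mul,
    PowerSeries.coeff_C_mul]
  unfold lam
  rw [PowerSeries.coeff_mk, PowerSeries.coeff_mk, PowerSeries.coeff_mk]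
  have h : 12 * ∑ d ∈ n.divisors, fw d =
      5 * ∑ d ∈ n.divisors, f3 d + 7 * ∑ d ∈ n.divisors, f5 d := by
    rw [Finset.mul_sum, Finset.mul_sum, Finset.mul_sum, ← Finset.sum_add_distrib]
    apply Finset.sum_congr rfl
    intro d _
    unfold fw f3 f5
    exact Nat.mul_div_cancel' (twelve_dvd d)
  exact_mod_cast h

theorem discr_eq : discr = De ℚ := by
  have h := lam_w
  have e : (1728 : PowerSeries ℚ) * discr = eis 4 ^ 3 - eis 6 ^ 2 := by
    unfold discr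
    rw [← mul_assoc]
    have : (1728 : PowerSeries ℚ) * PowerSeries.C (1 / 1728) = 1 := by
      have e1 : (1728 : PowerSeries ℚ) = PowerSeries.C 1728 :=
      (map_ofNat PowerSeries.C _).symm
      rw [e1, ← map_mul]
      norm_num
    rw [this, one_mul]
  rw [eis4, eis6] at e
  have e2 : (1728 : PowerSeries ℚ) * discr = 1728 * De ℚ := by
    rw [e]
    unfold De
    linear_combination (-144 : PowerSeries ℚ) * h
  have h0 : (1728 : PowerSeries ℚ) ≠ 0 := by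
    rw [← map_ofNat (PowerSeries.C (R := ℚ)) 1728]
    intro h
    have := congrArg (PowerSeries.constantCoeff (R := ℚ)) h
    simp at this
  exact mul_left_cancel₀ h0 e2

theorem De_ne : De ℚ ≠ 0 := by
  intro h
  have h1 : PowerSeries.coeff 1 (De ℚ) = 1 := by
    unfold De
    rw [map_sub, map_add, map_add]
    have h0 : PowerSeries.coeff 0 (lam ℚ f3) = 0 := by
      rw [PowerSeries.coeff_zero_eq_constantCoeff_apply]
      exact constCoeff_lam ℚ f3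
    have h0' : PowerSeries.coeff 0 (lam ℚ f5) = 0 := by
      rw [PowerSeries.coeff_zero_eq_constantCoeff_apply]
      exact constCoeff_lam ℚ f5
    have e100 : (100 : PowerSeries ℚ) = PowerSeries.C 100 :=
      (map_ofNat PowerSeries.C _).symm
    have e8000 : (8000 : PowerSeries ℚ) = PowerSeries.C 8000 :=
      (map_ofNat PowerSeries.C _).symm
    have e147 : (147 : PowerSeries ℚ) = PowerSeries.C 147 :=
      (map_ofNat PowerSeries.C _).symm
    have ha : Finset.HasAntidiagonal.antidiagonal 1 = {((0 : ℕ), (1 : ℕ)), (1, 0)} := by rfl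
    rw [e100, e8000, e147, PowerSeries.coeff_C_mul, PowerSeries.coeff_C_mul,
      PowerSeries.coeff_C_mul]
    simp only [PowerSeries.coeff_mul, ha]
    rw [Finset.sum_pair (by simp), Finset.sum_pair (by simp), Finset.sum_pair (by simp)]
    simp only [h0, h0']
    unfold lam
    simp [fw]
  rw [h] at h1
  simp at h1

/-- the `q`-expansion of `F` for `r = 1` and `j₀ = J` an integer -/
theorem F_eq (k J : ℕ) (K Fz : PowerSeries ℤ)
    (hK : eis k * De ℚ = PowerSeries.map (Int.castRingHom ℚ) K) (hF : Hs ℤ J * Fz = K) :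
    F k 1 (J : ℚ) = HahnSeries.ofPowerSeries ℤ ℚ (PowerSeries.map (Int.castRingHom ℚ) Fz) := by
  have h1 : Hs ℚ J * PowerSeries.map (Int.castRingHom ℚ) Fz = eis k * De ℚ := by
    rw [← map_Hs (Int.castRingHom ℚ) J, ← map_mul, hF, hK]
  have hinj := HahnSeries.ofPowerSeries_injective (Γ := ℤ) (R := ℚ)
  have hD : HahnSeries.ofPowerSeries ℤ ℚ (De ℚ) ≠ 0 := by
    intro h
    exact De_ne (hinj (by rw [h, map_zero]))
  have hH0 : Hs ℚ J ≠ 0 := by
    intro h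
    have := constCoeff_Hs ℚ J
    rw [h] at this
    simp at this
  have hH : HahnSeries.ofPowerSeries ℤ ℚ (Hs ℚ J) ≠ 0 := by
    intro h
    exact hH0 (hinj (by rw [h, map_zero]))
  have h2 := congrArg (HahnSeries.ofPowerSeries ℤ ℚ) h1
  rw [map_mul, map_mul] at h2
  have hC : (HahnSeries.C (J : ℚ) : LaurentSeries ℚ) =
      HahnSeries.ofPowerSeries ℤ ℚ ((J : ℕ) : PowerSeries ℚ) := by
    rw [map_natCast, map_natCast]
  have h3 : HahnSeries.ofPowerSeries ℤ ℚ (Hs ℚ J) =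
      HahnSeries.ofPowerSeries ℤ ℚ (eis 4) ^ 3 -
        HahnSeries.C (J : ℚ) * HahnSeries.ofPowerSeries ℤ ℚ (De ℚ) := by
    rw [hC, eis4]
    unfold Hs
    rw [map_sub, map_pow, map_mul]
  unfold F jq
  rw [discr_eq, pow_one]
  have h4 : HahnSeries.ofPowerSeries ℤ ℚ (eis 4) ^ 3 / HahnSeries.ofPowerSeries ℤ ℚ (De ℚ) -
      HahnSeries.C (J : ℚ) =
      HahnSeries.ofPowerSeries ℤ ℚ (Hs ℚ J) / HahnSeries.ofPowerSeries ℤ ℚ (De ℚ) := by
    rw [h3]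
    field_simp
  rw [h4, div_div_eq_mul_div, div_eq_iff hH, ← h2]
  ring

theorem a_nat (k J : ℕ) (K Fz : PowerSeries ℤ)
    (hK : eis k * De ℚ = PowerSeries.map (Int.castRingHom ℚ) K) (hF : Hs ℤ J * Fz = K) (m : ℕ) :
    a k 1 (J : ℚ) (m : ℚ) = ((PowerSeries.coeff m Fz : ℤ) : ℚ) := by
  unfold a
  rw [if_pos (Rat.den_natCast m), Rat.num_natCast, F_eq k J K Fz hK hF]
  rw [HahnSeries.ofPowerSeries_apply_coeff, PowerSeries.coeff_map]
  rfl

/-- the curve `y² + 7xy = x³ + 1764x + 2401` -/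
def W₀ : WeierstrassCurve ℤ := ⟨7, 0, 0, 1764, 2401⟩

theorem disc_W₀ : W₀.Δ = -7 ^ 6 * 1679 ^ 2 := by
  simp only [WeierstrassCurve.Δ, WeierstrassCurve.b₂, WeierstrassCurve.b₄, WeierstrassCurve.b₆,
    WeierstrassCurve.b₈, W₀]
  norm_num

theorem jInv_W₀ : jInv W₀ = 1679 := by
  unfold jInv
  rw [disc_W₀]
  simp only [WeierstrassCurve.c₄, WeierstrassCurve.b₂, WeierstrassCurve.b₄, W₀]
  norm_num

/-- points of a Weierstrass curve as pairs of coordinates and the point at infinity -/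
def ptEquiv {R : Type} [CommRing R] (W : WeierstrassCurve.Affine R) :
    W.Point ≃ Option {xy : R × R // W.Nonsingular xy.1 xy.2} where
  toFun
    | .zero => none
    | .some x y h => some ⟨(x, y), h⟩
  invFun
    | none => .zero
    | some ⟨(x, y), h⟩ => .some x y h
  left_inv P := by
    cases P <;> rfl
  right_inv P := by
    rcases P with _ | ⟨⟨x, y⟩, h⟩ <;> rfl

/-- the equation and smoothness condition of `W₀` over a ring -/
abbrev Q (R : Type) [CommRing R] (xy : R × R) : Prop :=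
  (xy.2 ^ 2 + 7 * xy.1 * xy.2 + 0 * xy.2 = xy.1 ^ 3 + 0 * xy.1 ^ 2 + 1764 * xy.1 + 2401) ∧
    (7 * xy.2 ≠ 3 * xy.1 ^ 2 + 2 * 0 * xy.1 + 1764 ∨ xy.2 ≠ -xy.2 - 7 * xy.1 - 0)

theorem card_point (p : ℕ) [Fact p.Prime] :
    Nat.card (W₀.map (Int.castRingHom (ZMod p))).toAffine.Point =
      ((univ : Finset (ZMod p × ZMod p)).filter (fun xy => Q (ZMod p) xy)).card + 1 := by
  have e1 : ∀ xy : ZMod p × ZMod p,
      (W₀.map (Int.castRingHom (ZMod p))).toAffine.Nonsingular xy.1 xy.2 ↔ Q (ZMod p) xy := by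
    intro xy
    rw [WeierstrassCurve.Affine.nonsingular_iff, WeierstrassCurve.Affine.equation_iff]
    simp only [WeierstrassCurve.map_a₁, WeierstrassCurve.map_a₂, WeierstrassCurve.map_a₃,
      WeierstrassCurve.map_a₄, WeierstrassCurve.map_a₆, W₀, map_ofNat, map_zero]
  rw [Nat.card_congr (ptEquiv _), Finite.card_option,
    Nat.card_congr (Equiv.subtypeEquivRight e1), Nat.card_eq_fintype_card, Fintype.card_subtype]

theorem ap2 : ap W₀ 2 = -1 := by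
  have : Fact (Nat.Prime 2) := ⟨Nat.prime_two⟩
  unfold ap
  rw [card_point 2]
  have : ((univ : Finset (ZMod 2 × ZMod 2)).filter (fun xy => Q (ZMod 2) xy)).card = 3 := by
    decide +kernel
  rw [this]
  norm_num

theorem ap3 : ap W₀ 3 = -2 := by
  have : Fact (Nat.Prime 3) := ⟨Nat.prime_three⟩
  unfold ap
  rw [card_point 3]
  have : ((univ : Finset (ZMod 3 × ZMod 3)).filter (fun xy => Q (ZMod 3) xy)).card = 5 := by
    decide +kernel
  rw [this]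
  norm_num

theorem ap5 : ap W₀ 5 = -1 := by
  have : Fact (Nat.Prime 5) := ⟨Nat.prime_five⟩
  unfold ap
  rw [card_point 5]
  have : ((univ : Finset (ZMod 5 × ZMod 5)).filter (fun xy => Q (ZMod 5) xy)).card = 6 := by
    decide +kernel
  rw [this]
  norm_num

theorem exists_roots (s t : ℂ) : ∃ α β : ℂ, α + β = s ∧ α * β = t := by
  obtain ⟨z, hz⟩ := IsAlgClosed.exists_pow_nat_eq (s ^ 2 - 4 * t) (n := 2) (by norm_num)
  refine ⟨(s + z) / 2, (s - z) / 2, by ring, ?_⟩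
  have : (s + z) / 2 * ((s - z) / 2) = (s ^ 2 - z ^ 2) / 4 := by ring
  rw [this, hz]
  ring

theorem not_cong {p : ℕ} (hp : p.Prime) {e : ℕ} {z : ℤ} (h : ¬ ((p : ℤ) ^ e ∣ z)) :
    ¬ CongZero p (e : ℤ) (z : ℚ) := by
  have := Fact.mk hp
  intro hc
  apply h
  rw [padicValInt_dvd_iff]
  rcases hc with hc | hc
  · left
    exact_mod_cast hc
  · right
    rw [padicValRat.of_int] at hc
    exact_mod_cast hc

/-- the coefficients of the characteristic polynomial for `k = 4` -/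
theorem poly4 (x y : ℤ) (α β : ℂ) (h1 : α + β = (x : ℂ)) (h2 : α * β = (y : ℂ)) :
    (∏ i ∈ range (4 - 1), (Polynomial.X - Polynomial.C (α ^ (4 - 2 - i) * β ^ i))) =
      ∑ i ∈ range 4, Polynomial.C
        (((([1, -(x ^ 2 - y), y * (x ^ 2 - y), -y ^ 3] : List ℤ).getD i 0 : ℤ)) : ℂ) *
          Polynomial.X ^ (4 - 1 - i) := by
  have g1 : Polynomial.C α + Polynomial.C β = Polynomial.C (x : ℂ) := by rw [← map_add, h1]
  have g2 : Polynomial.C α * Polynomial.C β = Polynomial.C (y : ℂ) := by rw [← map_mul, h2]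
  simp only [Finset.prod_range_succ, Finset.prod_range_zero, Finset.sum_range_succ,
    Finset.sum_range_zero, List.getD_cons_zero, List.getD_cons_succ]
  push_cast
  simp only [map_mul, map_pow, map_neg, map_sub, map_one, ← g1, ← g2]
  ring

theorem poly6 (α β : ℂ) (h1 : α + β = ((-1 : ℤ) : ℂ)) (h2 : α * β = ((5 : ℕ) : ℂ)) :
    (∏ i ∈ range (6 - 1), (Polynomial.X - Polynomial.C (α ^ (6 - 2 - i) * β ^ i))) =
      ∑ i ∈ range 6, Polynomial.C
        (((([1, -11, -495, 12375, 171875, -9765625] : List ℤ).getD i 0 : ℤ)) : ℂ) *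
          Polynomial.X ^ (6 - 1 - i) := by
  have g1 : Polynomial.C α + Polynomial.C β = -1 := by
    rw [← map_add, h1]
    simp
  have g2 : Polynomial.C α * Polynomial.C β = 5 := by
    rw [← map_mul, h2]
    exact map_natCast _ 5
  have g3 : Polynomial.C α ^ 2 + Polynomial.C β ^ 2 = -9 := by
    linear_combination (Polynomial.C α + Polynomial.C β - 1) * g1 - 2 * g2
  have g4 : Polynomial.C α ^ 4 + Polynomial.C β ^ 4 = 31 := by
    linear_combination (Polynomial.C α ^ 2 + Polynomial.C β ^ 2 - 9) * g3 -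
      2 * (Polynomial.C α * Polynomial.C β + 5) * g2
  simp only [Finset.prod_range_succ, Finset.prod_range_zero, Finset.sum_range_succ,
    Finset.sum_range_zero, List.getD_cons_zero, List.getD_cons_succ]
  push_cast
  simp only [map_mul, map_pow, map_neg, map_one, map_ofNat]
  have e1 : (1 * (Polynomial.X - Polynomial.C α ^ (6 - 2 - 0) * Polynomial.C β ^ 0) *
      (Polynomial.X - Polynomial.C α ^ (6 - 2 - 1) * Polynomial.C β ^ 1) *
      (Polynomial.X - Polynomial.C α ^ (6 - 2 - 2) * Polynomial.C β ^ 2) *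
      (Polynomial.X - Polynomial.C α ^ (6 - 2 - 3) * Polynomial.C β ^ 3) *
      (Polynomial.X - Polynomial.C α ^ (6 - 2 - 4) * Polynomial.C β ^ 4) : Polynomial ℂ) =
      (Polynomial.X ^ 2 - (Polynomial.C α ^ 4 + Polynomial.C β ^ 4) * Polynomial.X +
        (Polynomial.C α * Polynomial.C β) ^ 4) *
      (Polynomial.X ^ 2 - (Polynomial.C α * Polynomial.C β) *
        (Polynomial.C α ^ 2 + Polynomial.C β ^ 2) * Polynomial.X +
        (Polynomial.C α * Polynomial.C β) ^ 4) *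
      (Polynomial.X - (Polynomial.C α * Polynomial.C β) ^ 2) := by
    ring
  norm_num at e1 ⊢
  rw [e1, g4, g3, g2]
  ring

theorem K4_eq : eis 4 * De ℚ = PowerSeries.map (Int.castRingHom ℚ) (K4 ℤ) := by
  rw [map_K4, eis4]
  rfl

theorem K6_eq : eis 6 * De ℚ = PowerSeries.map (Int.castRingHom ℚ) (K6 ℤ) := by
  rw [map_K6, eis6]
  rfl

theorem a_frac (k r : ℕ) (j₀ m : ℚ) (h : m.den ≠ 1) : a k r j₀ m = 0 := by
  unfold a
  rw [if_neg h]

theorem fails2 : ¬ Holds W₀ 2 := by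
  intro h
  obtain ⟨α, β, h1, h2⟩ := exists_roots (ap W₀ 2 : ℂ) ((2 : ℕ) : ℂ)
  have h2' : α * β = (((2 : ℕ) : ℤ) : ℂ) := by rw [h2]; norm_cast
  obtain ⟨Fz, hF⟩ := exists_quot 1679 (K4 ℤ)
  have hs := h 4 (by decide) 1 le_rfl (by norm_num) α β
    (fun i => ([1, -(ap W₀ 2 ^ 2 - ((2 : ℕ) : ℤ)), ((2 : ℕ) : ℤ) * (ap W₀ 2 ^ 2 - ((2 : ℕ) : ℤ)),
      -((2 : ℕ) : ℤ) ^ 3] : List ℤ).getD i 0) h1 h2 (poly4 _ _ α β h1 h2') 1 2 le_rfl (by norm_num)
  have hj : jInv W₀ = ((1679 : ℕ) : ℚ) := by rw [jInv_W₀]; norm_num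
  rw [hj] at hs
  have ha := a_nat 4 1679 (K4 ℤ) Fz K4_eq hF
  have e0 : (((1 : ℕ) : ℚ) * ((2 : ℕ) : ℚ) ^ (((2 : ℕ) : ℤ) - ((0 : ℕ) : ℤ))) = ((4 : ℕ) : ℚ) := by
    norm_num
  have e1 : (((1 : ℕ) : ℚ) * ((2 : ℕ) : ℚ) ^ (((2 : ℕ) : ℤ) - ((1 : ℕ) : ℤ))) = ((2 : ℕ) : ℚ) := by
    norm_num
  have e2 : (((1 : ℕ) : ℚ) * ((2 : ℕ) : ℚ) ^ (((2 : ℕ) : ℤ) - ((2 : ℕ) : ℤ))) = ((1 : ℕ) : ℚ) := by
    norm_num
  have e3 : (((1 : ℕ) : ℚ) * ((2 : ℕ) : ℚ) ^ (((2 : ℕ) : ℤ) - ((3 : ℕ) : ℤ))) = 1 / 2 := by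
    norm_num
  have e4 : a 4 1 ((1679 : ℕ) : ℚ) (1 / 2) = 0 := a_frac _ _ _ _ (by norm_num)
  simp only [Finset.sum_range_succ, Finset.sum_range_zero, List.getD_cons_zero,
    List.getD_cons_succ, e0, e1, e2, e3, e4, ha, ap2] at hs
  have hz : ((((4 : ℕ) : ℤ) - 1) * ((2 : ℕ) : ℤ) - (((4 : ℕ) : ℤ) - 3) * ((4 : ℕ) : ℤ) / 2 -
      ((1 : ℕ) : ℤ)) = ((3 : ℕ) : ℤ) := by norm_num
  rw [hz] at hs
  refine not_cong (z := 1 * PowerSeries.coeff 4 Fz + 1 * PowerSeries.coeff 2 Fz +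
      (-2) * PowerSeries.coeff 1 Fz) Nat.prime_two (fin2 hF) ?_
  convert hs using 1
  push_cast
  ring

theorem fails3 : ¬ Holds W₀ 3 := by
  intro h
  obtain ⟨α, β, h1, h2⟩ := exists_roots (ap W₀ 3 : ℂ) ((3 : ℕ) : ℂ)
  have h2' : α * β = (((3 : ℕ) : ℤ) : ℂ) := by rw [h2]; norm_cast
  obtain ⟨Fz, hF⟩ := exists_quot 1679 (K4 ℤ)
  have hs := h 4 (by decide) 1 le_rfl (by norm_num) α β
    (fun i => ([1, -(ap W₀ 3 ^ 2 - ((3 : ℕ) : ℤ)), ((3 : ℕ) : ℤ) * (ap W₀ 3 ^ 2 - ((3 : ℕ) : ℤ)),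
      -((3 : ℕ) : ℤ) ^ 3] : List ℤ).getD i 0) h1 h2 (poly4 _ _ α β h1 h2') 1 3 le_rfl (by norm_num)
  have hj : jInv W₀ = ((1679 : ℕ) : ℚ) := by rw [jInv_W₀]; norm_num
  rw [hj] at hs
  have ha := a_nat 4 1679 (K4 ℤ) Fz K4_eq hF
  have e0 : (((1 : ℕ) : ℚ) * ((3 : ℕ) : ℚ) ^ (((3 : ℕ) : ℤ) - ((0 : ℕ) : ℤ))) =
      ((27 : ℕ) : ℚ) := by
    norm_num
  have e1 : (((1 : ℕ) : ℚ) * ((3 : ℕ) : ℚ) ^ (((3 : ℕ) : ℤ) - ((1 : ℕ) : ℤ))) = ((9 : ℕ) : ℚ) := by
    norm_num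
  have e2 : (((1 : ℕ) : ℚ) * ((3 : ℕ) : ℚ) ^ (((3 : ℕ) : ℤ) - ((2 : ℕ) : ℤ))) = ((3 : ℕ) : ℚ) := by
    norm_num
  have e3 : (((1 : ℕ) : ℚ) * ((3 : ℕ) : ℚ) ^ (((3 : ℕ) : ℤ) - ((3 : ℕ) : ℤ))) = ((1 : ℕ) : ℚ) := by
    norm_num
  simp only [Finset.sum_range_succ, Finset.sum_range_zero, List.getD_cons_zero,
    List.getD_cons_succ, e0, e1, e2, e3, ha, ap3] at hs
  have hz : ((((4 : ℕ) : ℤ) - 1) * ((3 : ℕ) : ℤ) - (((4 : ℕ) : ℤ) - 3) * ((4 : ℕ) : ℤ) / 2 -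
      ((1 : ℕ) : ℤ)) = ((6 : ℕ) : ℤ) := by norm_num
  rw [hz] at hs
  refine not_cong (z := 1 * PowerSeries.coeff 27 Fz + (-1) * PowerSeries.coeff 9 Fz +
      3 * PowerSeries.coeff 3 Fz + (-27) * PowerSeries.coeff 1 Fz) Nat.prime_three (fin3 hF) ?_
  convert hs using 1
  push_cast
  ring

theorem fails5 : ¬ Holds W₀ 5 := by
  intro h
  obtain ⟨α, β, h1, h2⟩ := exists_roots (ap W₀ 5 : ℂ) ((5 : ℕ) : ℂ)
  have h1' : α + β = ((-1 : ℤ) : ℂ) := by rw [h1, ap5]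
  obtain ⟨Fz, hF⟩ := exists_quot 1679 (K6 ℤ)
  have hs := h 6 (by decide) 1 le_rfl (by norm_num) α β
    (fun i => ([1, -11, -495, 12375, 171875, -9765625] : List ℤ).getD i 0) h1 h2
      (poly6 α β h1' h2) 1 5 le_rfl (by norm_num)
  have hj : jInv W₀ = ((1679 : ℕ) : ℚ) := by rw [jInv_W₀]; norm_num
  rw [hj] at hs
  have ha := a_nat 6 1679 (K6 ℤ) Fz K6_eq hF
  have e0 : (((1 : ℕ) : ℚ) * ((5 : ℕ) : ℚ) ^ (((5 : ℕ) : ℤ) - ((0 : ℕ) : ℤ))) =
      ((3125 : ℕ) : ℚ) := by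
    norm_num
  have e1 : (((1 : ℕ) : ℚ) * ((5 : ℕ) : ℚ) ^ (((5 : ℕ) : ℤ) - ((1 : ℕ) : ℤ))) =
      ((625 : ℕ) : ℚ) := by
    norm_num
  have e2 : (((1 : ℕ) : ℚ) * ((5 : ℕ) : ℚ) ^ (((5 : ℕ) : ℤ) - ((2 : ℕ) : ℤ))) =
      ((125 : ℕ) : ℚ) := by
    norm_num
  have e3 : (((1 : ℕ) : ℚ) * ((5 : ℕ) : ℚ) ^ (((5 : ℕ) : ℤ) - ((3 : ℕ) : ℤ))) =
      ((25 : ℕ) : ℚ) := by
    norm_num
  have e4 : (((1 : ℕ) : ℚ) * ((5 : ℕ) : ℚ) ^ (((5 : ℕ) : ℤ) - ((4 : ℕ) : ℤ))) =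
      ((5 : ℕ) : ℚ) := by
    norm_num
  have e5 : (((1 : ℕ) : ℚ) * ((5 : ℕ) : ℚ) ^ (((5 : ℕ) : ℤ) - ((5 : ℕ) : ℤ))) =
      ((1 : ℕ) : ℚ) := by
    norm_num
  simp only [Finset.sum_range_succ, Finset.sum_range_zero, List.getD_cons_zero,
    List.getD_cons_succ, e0, e1, e2, e3, e4, e5, ha] at hs
  have hz : ((((6 : ℕ) : ℤ) - 1) * ((5 : ℕ) : ℤ) - (((6 : ℕ) : ℤ) - 3) * ((6 : ℕ) : ℤ) / 2 -
      ((1 : ℕ) : ℤ)) = ((15 : ℕ) : ℤ) := by norm_num
  rw [hz] at hs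
  refine not_cong (z := 1 * PowerSeries.coeff 3125 Fz + (-11) * PowerSeries.coeff 625 Fz +
      (-495) * PowerSeries.coeff 125 Fz + 12375 * PowerSeries.coeff 25 Fz +
      171875 * PowerSeries.coeff 5 Fz + (-9765625) * PowerSeries.coeff 1 Fz)
      Nat.prime_five (fin5 hF) ?_
  convert hs using 1
  push_cast
  ring

theorem disc_ne : W₀.Δ ≠ 0 := by
  rw [disc_W₀]
  norm_num

theorem good (p : ℕ) (hp : p ∈ ({2, 3, 5} : Finset ℕ)) : p.Prime ∧ ¬ ((p : ℤ) ∣ W₀.Δ) ∧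
    padicValRat p (jInv W₀) = 0 ∧ padicValRat p (jInv W₀ - 1728) = 0 := by
  have h2 : jInv W₀ = (1679 : ℤ) := by rw [jInv_W₀]; norm_num
  have h3 : jInv W₀ - 1728 = ((-49 : ℤ) : ℚ) := by rw [jInv_W₀]; norm_num
  rw [h3, h2, disc_W₀, padicValRat.of_int, padicValRat.of_int]
  simp only [Finset.mem_insert, Finset.mem_singleton] at hp
  rcases hp with rfl | rfl | rfl
  · refine ⟨Nat.prime_two, by norm_num, ?_, ?_⟩ <;>
    · rw [padicValInt.eq_zero_of_not_dvd (by norm_num)]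
      rfl
  · refine ⟨Nat.prime_three, by norm_num, ?_, ?_⟩ <;>
    · rw [padicValInt.eq_zero_of_not_dvd (by norm_num)]
      rfl
  · refine ⟨Nat.prime_five, by norm_num, ?_, ?_⟩ <;>
    · rw [padicValInt.eq_zero_of_not_dvd (by norm_num)]
      rfl

/-- Q1 is false; moreover there is one elliptic curve over `ℚ` (with `j = 1679`), with good
reduction at `2`, `3` and `5`, for which the congruences fail at each of these three primes. -/
theorem result : ¬ Q1 ∧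
    ∃ W : WeierstrassCurve ℤ, W.Δ ≠ 0 ∧ jInv W = 1679 ∧ ∀ p ∈ ({2, 3, 5} : Finset ℕ),
      p.Prime ∧ ¬ ((p : ℤ) ∣ W.Δ) ∧ padicValRat p (jInv W) = 0 ∧
        padicValRat p (jInv W - 1728) = 0 ∧ ¬ Holds W p := by
  refine ⟨?_, W₀, disc_ne, jInv_W₀, ?_⟩
  · intro h
    obtain ⟨h1, h2, h3, h4⟩ := good 2 (by decide)
    exact fails2 (h W₀ disc_ne (by rw [jInv_W₀]; norm_num) (by rw [jInv_W₀]; norm_num) 2 h1 h2
      h3 h4)
  · intro p hp
    obtain ⟨h1, h2, h3, h4⟩ := good p hp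
    refine ⟨h1, h2, h3, h4, ?_⟩
    simp only [Finset.mem_insert, Finset.mem_singleton] at hp
    rcases hp with rfl | rfl | rfl
    · exact fails2
    · exact fails3
    · exact fails5

end Pool.Agent.Results.MP_fb382b_nt.AsdFails
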